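import Pool.Agent.helper75.NS.Final

/-!
# The tree property does not imply the narrow system property at the successor of a singular
-/

namespace Pool.Agent.Results.MP_422f9f_lc.TreeNotNarrow

open Pool.Agent.helper31.ZF Pool.Agent.helper74.HY Pool.Agent.helper75.NS

/-- If `κ` is a Vopěnka cardinal, then there is a model of ZF in which the axiom of choice holds
and some singular cardinal `mu` has a successor `lam` at which the tree property holds and the
narrow system property fails. -/
theorem result (κ : Cardinal.{0}) (h : IsVopenka κ) :
    ∃ (M : Type) (_ : ZFModel M), AC M ∧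
      ∃ mu lam : M, IsSingular mu ∧ IsSuccCard mu lam ∧ TP lam ∧ ¬ NSP lam :=
  main κ h

end Pool.Agent.Results.MP_422f9f_lc.TreeNotNarrow
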